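import Pool.Agent.X269.KP.ConicMain

/-!
MP_4d1008_ag: regular proper models over `ℤ`, in every dimension, of the quotients of products of
projective lines over number fields by involutions, with wild fixed points.

Let `E` be a number field in which `2` is unramified and let `a 0, ..., a n` be nonzero integers of
`E` which are squarefree (as ideals), pairwise coprime, prime to `2` and congruent to squares modulo
`4`. The involution `y i ↦ a i / y i` acts on the field `E(y 0, ..., y n)` of rational functions,
with the fixed points `y i = ± √(a i)`. For `E = ℚ` the numbers `a i` are the discriminants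
`d ≡ 1` modulo `4` of quadratic fields (or `1`), pairwise coprime. The field of invariants is the
function field of the quotient of the product of the `n + 1` projective lines by the diagonal
involution. By Saltman, it is not a rational function field, and not even retract rational, if three
of the `a i` are independent modulo squares.

The proof: (1) the product of the regular conics `x z = a i * y ^ 2` over the ring of integers is
regular; (2) its involution has exactly one fixed point over each prime `𝔭` containing `2`, with
local parameters `2` and `z i`, `i ≤ n`; there `σ - 1` maps the local ring into the square of the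
maximal ideal, and modulo `2` its leading form is `z i ↦ z i ^ 2`, up to units, and has no zeros;
(3) then the quotient of the blowing-up of these points and of the fixed schemes is regular
(the criterion for involutions of the starting library, due to helpers 223, 418, 188 and others).

helper269; built on the library of the starting files.
-/

set_option autoImplicit false

open AlgebraicGeometry CategoryTheory

open scoped NumberField

namespace Pool.Agent.Results.MP_4d1008_ag.ConicProductQuotients

/-- Let `E` be a number field in which `2` is unramified, and let `a 0, ..., a n` be integers of `E`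
such that the ideals `(a i)` are squarefree, pairwise coprime and prime to `2`, and `a i` is
congruent to a square modulo `4`. Let `K = E(y 0, ..., y n)` be the field of rational functions in
`n + 1` variables and `σ` the involution of `K` over `E` with `σ (y i) = a i / y i`. Then every
integral scheme of finite type over `ℤ` whose function field is isomorphic to the field of
invariants of `σ` has a regular model which is proper over `ℤ`. -/
theorem result :
    ∀ (E : Type) [Field E] [NumberField E], Squarefree (Ideal.span {(2 : 𝓞 E)}) →
      ∀ (n : ℕ) (a : Fin (n + 1) → 𝓞 E), (∀ i, Squarefree (Ideal.span {a i})) →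
      (∀ i j, i ≠ j → IsCoprime (a i) (a j)) → (∀ i, IsCoprime (a i) 2) →
      (∀ i, ∃ α : 𝓞 E, 4 ∣ a i - α ^ 2) →
      ∀ (K : Type) [Field K] [Algebra E K] (y : Fin (n + 1) → K), AlgebraicIndependent E y →
      IntermediateField.adjoin E (Set.range y) = ⊤ →
      ∀ (σ : K ≃ₐ[E] K), (∀ i, σ (y i) = algebraMap E K (a i) / y i) →
      ∀ (Y : Scheme.{0}) (_ : IsIntegral Y) (g : Y ⟶ Spec (CommRingCat.of ℤ)),
      LocallyOfFiniteType g → QuasiCompact g →
      Nonempty (Y.functionField ≃+* IntermediateField.fixedField (Subgroup.zpowers σ)) →
      ∃ (X' : Scheme.{0}) (_ : IsIntegral X') (g' : X' ⟶ Spec (CommRingCat.of ℤ)),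
        IsProper g' ∧
        (∀ x : X',
          (((Module.finrank (IsLocalRing.ResidueField (X'.presheaf.stalk x))
              (IsLocalRing.CotangentSpace (X'.presheaf.stalk x)) : ℕ∞)) : WithBot ℕ∞)
            = ringKrullDim (X'.presheaf.stalk x)) ∧
        Nonempty (X'.functionField ≃+* Y.functionField) := by
  intro E _ _ h2 n a hsq hco ha2 hα K _ _ y hy hK σ hσ Y _ g _ _ ⟨e⟩
  choose α hα using hα
  choose b hb using hα
  have hF : ∀ x, σ x = x ↔ ∃ f : IntermediateField.fixedField (Subgroup.zpowers σ),
      algebraMap (IntermediateField.fixedField (Subgroup.zpowers σ)) K f = x := by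
    intro x
    constructor
    · intro hx
      refine ⟨⟨x, ?_⟩, rfl⟩
      rintro ⟨τ, hτ⟩
      obtain ⟨k, rfl⟩ := Subgroup.mem_zpowers_iff.1 hτ
      have h1 : σ ∈ MulAction.stabilizer (K ≃ₐ[E] K) x := hx
      exact (MulAction.stabilizer (K ≃ₐ[E] K) x).zpow_mem h1 k
    · rintro ⟨f, rfl⟩
      exact f.2 ⟨σ, Subgroup.mem_zpowers σ⟩
  obtain ⟨X', hX', g', h3, h4, ⟨h5⟩⟩ := Pool.Agent.X269.KP.conic_main (𝓞 E) E h2 a α b hsq hco ha2
    (fun i => by rw [← hb i]; ring) K y hy hK σ hσ hF
  exact ⟨X', hX', g', h3, h4, ⟨h5.trans e.symm⟩⟩

end Pool.Agent.Results.MP_4d1008_ag.ConicProductQuotients
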