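import Pool.Agent.X269.HP.Jac

/-!
MP_4d1008_ag: regular proper models over `ℤ`, in every dimension, of the quotients of products of
hyperelliptic curves over number fields by involutions with wild fixed points.

Let `E` be a number field in which `2` is unramified. The factors are double covers
`y ^ 2 + h y = f` of the projective line over the integers of `E`, with `deg h ≤ r` and
`deg f ≤ 2 r` (so of genus `r - 1` if the branch points are distinct), and `rev` is the equation
`y ^ 2 + h' y = f'` at infinity, in the coordinates `1 / x` and `y / x ^ r`. The involution of the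
product is the hyperelliptic involution `y ↦ - y - h` on some of the factors, and it changes the
signs of `x` and `y`, or of one of them, on the others; on these it may be a translation or another
involution without fixed points. Such a sign change is trivial modulo `2`.

Example: `E = ℚ`, the genus two curves `y ^ 2 + h y = h` with
`h = x ^ 3 + x + c`, `c` odd, have the branch polynomial `h (h + 4)`, whose discriminant is
`(27 c ^ 2 + 4) (27 (c + 4) ^ 2 + 4)` up to a power of `2`. If this is
squarefree and these numbers are pairwise coprime for different factors then the hypotheses hold, and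
one can add factors `y ^ 2 + a x y = b x ^ 4 + c x ^ 2 + d` of genus one, on which the involution is
the translation `(x, y) ↦ (- x, - y)` by a point of order two, if `a b d` is odd and
`b d ((a ^ 2 + 4 c) ^ 2 - 64 b d)` is squarefree and prime to the other numbers.

The proof: (1) the product of the models is regular; (2) at a fixed point over `2` let
`𝔞` be the ideal generated by `2` and by the functions `y` and `h` of the factors of the first kind;
`σ - 1` maps the local ring into `𝔞` and `𝔞` into `𝔞 ^ 2`, the quotient by `𝔞` is
regular and the leading form of `σ - 1` along `𝔞` has no zeros; (3) then the quotient of the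
blowing-up of the centre and of the fixed schemes is regular (the criterion for involutions of the
starting library, due to helpers 223, 418, 188 and others).

helper269; built on the library of the starting files.
-/

set_option autoImplicit false

open AlgebraicGeometry CategoryTheory Polynomial Pool.Agent.X269.HP

open scoped NumberField

namespace Pool.Agent.Results.MP_4d1008_ag.HyperellipticProductQuotients

/-- Let `E` be a number field in which `2` is unramified, let `C i` be equations
`y ^ 2 + h y = f` over its ring of integers with `deg h ≤ r`, `deg f ≤ 2 r`, and suppose: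

* the branch polynomials `h ^ 2 + 4 f` of `C i` and of the equation at infinity are not in
  the square of a maximal ideal which does not contain `2` (the models are regular there);
* the primes which do not contain `2` and at which `C i` is not smooth contain `d i`, and no two of
  the `d i` are in a common prime which does not contain `2`;
* for `i` not in `T` the equation is `y ^ 2 + h y = h u + 4 v`, where the roots of `h`
  are simple and not roots of `u` at the primes containing `2`, including infinity (`IsOrd`);
* for `i` in `T` the reductions of `C i` at the primes containing `2` are smooth.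

Let `K = E(x, y)` be generated by the coordinates `(x i, y i)` of the generic points, with
`x i` algebraically independent, and let `σ` be an involution of `K` over `E` which is the
hyperelliptic involution `y i ↦ - y i - h (x i)` for `i` not in `T`, and `(x i, y i) ↦ (± x i, ± y i)`
for `i` in `T`, with any signs. Suppose that not all `i` are in `T`, and that some `i` is in `T` or
some curve has `r ≥ 3`. Then every integral scheme of finite type over `ℤ` whose function field is
isomorphic to the field of invariants of `σ` has a regular model which is proper over `ℤ`. -/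
theorem result :
    ∀ (E : Type) [Field E] [NumberField E], Squarefree (Ideal.span {(2 : 𝓞 E)}) →
      ∀ (n : ℕ) (C : Fin (n + 1) → Hyp (𝓞 E)), (∀ i, (C i).IsDeg) →
      (∀ i, ∀ 𝔪 : Ideal (𝓞 E)[X], 𝔪.IsMaximal → 2 ∉ 𝔪 →
        (C i).branch ∉ 𝔪 ^ 2 ∧ (C i).rev.branch ∉ 𝔪 ^ 2) →
      ∀ d : Fin (n + 1) → 𝓞 E, (∀ i, (C i).IsDisc (d i) ∧ (C i).rev.IsDisc (d i)) →
      (∀ i j, i ≠ j → ∀ 𝔭 : Ideal (𝓞 E), 𝔭.IsPrime → d i ∈ 𝔭 → d j ∈ 𝔭 → 2 ∈ 𝔭) →
      ∀ T : Set (Fin (n + 1)), (∃ i, i ∉ T) → ((∃ i, i ∈ T) ∨ ∃ i, 3 ≤ (C i).r) →
      (∀ i, i ∉ T → (C i).IsOrd ∧ (C i).rev.IsOrd) →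
      (∀ i ∈ T, (C i).IsSmoothTwo ∧ (C i).rev.IsSmoothTwo) →
      ∀ (K : Type) [Field K] [Algebra E K] (x y : Fin (n + 1) → K), AlgebraicIndependent E x →
      (∀ i, y i ^ 2 + aeval (x i) ((C i).h.map (algebraMap (𝓞 E) E)) * y i =
        aeval (x i) ((C i).f.map (algebraMap (𝓞 E) E))) →
      IntermediateField.adjoin E (Set.range x ∪ Set.range y) = ⊤ →
      ∀ (σ : K ≃ₐ[E] K), (∀ i, i ∉ T → σ (x i) = x i ∧
        σ (y i) = -y i - aeval (x i) ((C i).h.map (algebraMap (𝓞 E) E))) →
      (∀ i ∈ T, (σ (x i) = x i ∨ σ (x i) = -x i) ∧ (σ (y i) = y i ∨ σ (y i) = -y i)) →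
      ∀ (Y : Scheme.{0}) (_ : IsIntegral Y) (g : Y ⟶ Spec (CommRingCat.of ℤ)),
      LocallyOfFiniteType g → QuasiCompact g →
      Nonempty (Y.functionField ≃+* IntermediateField.fixedField (Subgroup.zpowers σ)) →
      ∃ (X' : Scheme.{0}) (_ : IsIntegral X') (g' : X' ⟶ Spec (CommRingCat.of ℤ)),
        IsProper g' ∧
        (∀ x : X',
          (((Module.finrank (IsLocalRing.ResidueField (X'.presheaf.stalk x))
              (IsLocalRing.CotangentSpace (X'.presheaf.stalk x)) : ℕ∞)) : WithBot ℕ∞)
            = ringKrullDim (X'.presheaf.stalk x)) ∧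
        Nonempty (X'.functionField ≃+* Y.functionField) := by
  intro E _ _ h2 n C hC hR d hd hco T hT _ hord hsmo K _ _ x y hx hE hK σ hσ hσt Y _ g _ _ ⟨e⟩
  have hF : ∀ x, σ x = x ↔ ∃ f : IntermediateField.fixedField (Subgroup.zpowers σ),
      algebraMap (IntermediateField.fixedField (Subgroup.zpowers σ)) K f = x := by
    intro x
    constructor
    · intro hx
      refine ⟨⟨x, ?_⟩, rfl⟩
      rintro ⟨τ, hτ⟩
      obtain ⟨k, rfl⟩ := Subgroup.mem_zpowers_iff.1 hτ
      have h1 : σ ∈ MulAction.stabilizer (K ≃ₐ[E] K) x := hx
      exact (MulAction.stabilizer (K ≃ₐ[E] K) x).zpow_mem h1 k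
    · rintro ⟨f, rfl⟩
      exact f.2 ⟨σ, Subgroup.mem_zpowers σ⟩
  have hJ : IsJacobsonRing (𝓞 E) := jacO E
  have hR' : ∀ i, (C i).IsReg ∧ (C i).rev.IsReg := fun i =>
    ⟨isReg_of_max fun 𝔪 h𝔪 h => (hR i 𝔪 h𝔪 h).1, isReg_of_max fun 𝔪 h𝔪 h => (hR i 𝔪 h𝔪 h).2⟩
  obtain ⟨X', hX', g', h3, h4, ⟨h5⟩⟩ := hyp_main (𝓞 E) E h2 C hC hR' d hd hco T hT hord hsmo K x y
    hx hE hK σ (fun i hi => (hσ i hi).1) (fun i hi => (hσ i hi).2) hσt hF
  exact ⟨X', hX', g', h3, h4, ⟨h5.trans e.symm⟩⟩

end Pool.Agent.Results.MP_4d1008_ag.HyperellipticProductQuotients
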