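import Pool.Agent.X269.KP.EllGen

/-!
MP_4d1008_ag: regular proper models over `ℤ`, in every dimension, of Kummer varieties of products
of elliptic curves over number fields.

Let `E` be a number field in which `2` is unramified and let `W 0, ..., W n` be Weierstrass curves
with integral coefficients, whose discriminants are squarefree (as ideals) and pairwise coprime, and
squares modulo `4`, and whose coefficients `a₁` are prime to `2`. So the reduction of each of them is
smooth or a nodal curve of type `I₁`, and it is ordinary and smooth over `2`. (For `E = ℚ` these are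
the curves with squarefree discriminant congruent to `1` modulo `4` and with odd `a₁`, for example
`y ^ 2 + x * y + y = x ^ 3 - x ^ 2 - x` of discriminant `17` and
`y ^ 2 + x * y + y = x ^ 3 + x ^ 2 + x` of discriminant `-83`.) The field of
invariants of the involution `-1` on the function field `K` of the product of these curves is the
function field of the Kummer variety of the product.

The proof: (1) the product of the minimal Weierstrass models over the ring of integers is regular;
(2) over each prime containing `2` the involution has exactly `2 ^ (n + 1)` fixed points (each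
coordinate is one of the two points of the reduced curve which are killed by `2`); there `σ - 1`
maps the local ring into the square of the maximal ideal, and modulo `2` its leading form is
`z i ↦ z i ^ 2`, up to units, and has no zeros; (3) then the quotient of the
blowing-up of these points and of the fixed schemes is regular (the criterion for involutions of the
starting library, due to helpers 223, 418, 188 and others).

helper269; built on the library of the starting files.
-/

set_option autoImplicit false

open AlgebraicGeometry CategoryTheory

open scoped NumberField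

namespace Pool.Agent.Results.MP_4d1008_ag.KummerProducts

/-- Let `E` be a number field in which `2` is unramified, and let `W 0, ..., W n` be Weierstrass
curves over its ring of integers such that the discriminants are squarefree (as ideals), pairwise
coprime and congruent to squares modulo `4`, and the coefficients `a₁` are prime to `2`.
Let `K = E(x 0, ..., x n, y 0, ..., y n)` be the function field of the product of the curves, where
`(x i, y i)` is the generic point of `W i`, and let `σ` be the inversion, which fixes `x i` and maps
`y i` to `- y i - a₁ x i - a₃`. Then every integral scheme of finite type over `ℤ` whose function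
field is isomorphic to the field of invariants of `σ` has a regular model which is proper
over `ℤ`. -/
theorem result :
    ∀ (E : Type) [Field E] [NumberField E], Squarefree (Ideal.span {(2 : 𝓞 E)}) →
      ∀ (n : ℕ) (W : Fin (n + 1) → WeierstrassCurve (𝓞 E)),
      (∀ i, Squarefree (Ideal.span {(W i).Δ})) →
      (∀ i j, i ≠ j → IsCoprime (W i).Δ (W j).Δ) → (∀ i, IsCoprime (W i).a₁ 2) →
      (∀ i, ∃ s : 𝓞 E, 4 ∣ (W i).Δ - s ^ 2) →
      ∀ (K : Type) [Field K] [Algebra E K] (x y : Fin (n + 1) → K), AlgebraicIndependent E x →
      (∀ i, y i ^ 2 + algebraMap E K (W i).a₁ * x i * y i + algebraMap E K (W i).a₃ * y i =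
        x i ^ 3 + algebraMap E K (W i).a₂ * x i ^ 2 + algebraMap E K (W i).a₄ * x i +
          algebraMap E K (W i).a₆) →
      IntermediateField.adjoin E (Set.range x ∪ Set.range y) = ⊤ →
      ∀ (σ : K ≃ₐ[E] K), (∀ i, σ (x i) = x i) →
      (∀ i, σ (y i) = -y i - algebraMap E K (W i).a₁ * x i - algebraMap E K (W i).a₃) →
      ∀ (Y : Scheme.{0}) (_ : IsIntegral Y) (g : Y ⟶ Spec (CommRingCat.of ℤ)),
      LocallyOfFiniteType g → QuasiCompact g →
      Nonempty (Y.functionField ≃+* IntermediateField.fixedField (Subgroup.zpowers σ)) →
      ∃ (X' : Scheme.{0}) (_ : IsIntegral X') (g' : X' ⟶ Spec (CommRingCat.of ℤ)),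
        IsProper g' ∧
        (∀ x : X',
          (((Module.finrank (IsLocalRing.ResidueField (X'.presheaf.stalk x))
              (IsLocalRing.CotangentSpace (X'.presheaf.stalk x)) : ℕ∞)) : WithBot ℕ∞)
            = ringKrullDim (X'.presheaf.stalk x)) ∧
        Nonempty (X'.functionField ≃+* Y.functionField) := by
  intro E _ _ h2 n W hsq hco ha2 hs K _ _ x y hx hE hK σ hσx hσy Y _ g _ _ ⟨e⟩
  have hF : ∀ x, σ x = x ↔ ∃ f : IntermediateField.fixedField (Subgroup.zpowers σ),
      algebraMap (IntermediateField.fixedField (Subgroup.zpowers σ)) K f = x := by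
    intro x
    constructor
    · intro hx
      refine ⟨⟨x, ?_⟩, rfl⟩
      rintro ⟨τ, hτ⟩
      obtain ⟨k, rfl⟩ := Subgroup.mem_zpowers_iff.1 hτ
      have h1 : σ ∈ MulAction.stabilizer (K ≃ₐ[E] K) x := hx
      exact (MulAction.stabilizer (K ≃ₐ[E] K) x).zpow_mem h1 k
    · rintro ⟨f, rfl⟩
      exact f.2 ⟨σ, Subgroup.mem_zpowers σ⟩
  have hfin : ∀ 𝔭 : Ideal (𝓞 E), 𝔭.IsPrime → 𝔭 ≠ ⊥ → Finite (𝓞 E ⧸ 𝔭) := fun 𝔭 _ h =>
    Ideal.finiteQuotientOfFreeOfNeBot 𝔭 h
  obtain ⟨X', hX', g', h3, h4, ⟨h5⟩⟩ := Pool.Agent.X269.KP.ell_general (𝓞 E) E hfin h2 W hsq hco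
    ha2 hs K x y hx hE hK σ hσx hσy hF
  exact ⟨X', hX', g', h3, h4, ⟨h5.trans e.symm⟩⟩

end Pool.Agent.Results.MP_4d1008_ag.KummerProducts
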