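import Pool.Agent.X269.HQ.TwMain

/-!
MP_4d1008_ag: regular proper models over `ℤ`, in every dimension, of products of quadratic twists of
hyperelliptic curves by ramified characters, with ordinary reduction at `2` before twisting.

Let `E` be a number field with an involution `s`, ramified over the field of invariants `E'` at some
primes over `2`, with different exponent two. (For `E' = ℚ`, `E = ℚ(√D)`, `D` squarefree, this holds
if `D ≡ 3` modulo `4`, and for `D ≡ 1` no prime over `2` is ramified.) The factors are double covers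
`y ^ 2 + h y = f` of the projective line over the integers of `E` with `deg h ≤ r`,
`deg f ≤ 2 r` (so of genus `r - 1` if the branch points are distinct), and `rev` is the equation
`y ^ 2 + h' y = f'` at infinity, in the coordinates `1 / x` and `y / x ^ r`. The involution `σ` of
the function field of the product over `E` acts by `s` on `E`, it is the hyperelliptic involution
`y ↦ - y - h`, `x ↦ x` on some of the factors and changes signs of `x` and `y` (or of none of
them) on the others. So the field of invariants is the function field of a product over `E'` of the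
twists by `E / E'` of the curves of the first kind, and of forms over `E'` of the curves
of the second kind. For example, for `E = ℚ(√D)` and curves `y ^ 2 + h y = f` over `ℤ` it is
`ℚ(x, √(D * b 0 (x 0)), ..., √(D * b n (x n)))` with `b = h ^ 2 + 4 * f`, if all factors are of the
first kind. These twists have additive, potentially good, wildly ramified reduction at `2` if
`D ≡ 3` modulo `4`.

The proof: (1) the product over the ring of integers of `E` is regular; (2) over a ramified prime
over `2` let `𝔞` be the ideal of a fixed point generated by the prime and by the functions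
`y` and `h` of the factors of the first kind; `σ - 1` maps the local ring into `𝔞` and `𝔞` into
`𝔞 ^ 2`, the quotient by `𝔞` is regular and the leading form of `σ - 1` along `𝔞` has no zeros;
(3) then the quotient of the blowing-up of the centre and of the fixed schemes is regular (the
criterion for involutions of the starting library, due to helpers 223, 418, 188 and others).

helper269; built on the library of the starting files.
-/

set_option autoImplicit false

open AlgebraicGeometry CategoryTheory Polynomial Pool.Agent.X269.HP Pool.Agent.X269.HQ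

open scoped NumberField

namespace Pool.Agent.Results.MP_4d1008_ag.TwistedHyperellipticProducts

/-- Let `E` be a number field with an involution `s`, not the identity, of its ring of integers such
that at each prime `𝔓` containing `2` modulo which `s` is the identity there is `a` in `𝔓` with
`s a - a` not in `𝔓 ^ 3` (the different exponent is two). Let `C i` be equations `y ^ 2 + h y = f`
over the ring of integers with `deg h ≤ r`, `deg f ≤ 2 r`, and suppose:

* the branch polynomials `h ^ 2 + 4 f` of `C i` and of the equation at infinity are not in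
  the square of a maximal ideal which does not contain `2` (the models are regular there);
* the primes which do not contain `2` and at which `C i` is not smooth contain `d i`, and no two of
  the `d i` are in a common prime which does not contain `2`;
* for `i` not in `T` the equation is `y ^ 2 + h y = h u + 2 v`, where the roots of `h`
  are simple and not roots of `u` at the primes containing `2`, including infinity (`IsOrdTwo`), and
  the coefficients of `h` are fixed by `s`;
* for `i` in `T` the reductions of `C i` at the primes containing `2` are smooth.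

Let `K = E(x, y)` be generated by the coordinates `(x i, y i)` of the generic points, with
`x i` algebraically independent, and let `σ` be an automorphism of `K` which extends `s`, maps
`(x i, y i)` to `(x i, - y i - h (x i))` for `i` not in `T`, and to `(± x i, ± y i)`
for `i` in `T`, with any signs. Then every integral scheme of finite type over `ℤ` whose function
field is isomorphic to the field of invariants of `σ` has a regular model which is proper over
`ℤ`. -/
theorem result :
    ∀ (E : Type) [Field E] [NumberField E] (s : 𝓞 E ≃+* 𝓞 E), (∀ a, s (s a) = a) →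
      (∃ a, s a ≠ a) →
      (∀ 𝔓 : Ideal (𝓞 E), 𝔓.IsPrime → 2 ∈ 𝔓 → (∀ a, s a - a ∈ 𝔓) → ∃ a ∈ 𝔓, s a - a ∉ 𝔓 ^ 3) →
      ∀ (n : ℕ) (C : Fin (n + 1) → Hyp (𝓞 E)), (∀ i, (C i).IsDeg) →
      (∀ i, ∀ 𝔪 : Ideal (𝓞 E)[X], 𝔪.IsMaximal → 2 ∉ 𝔪 →
        (C i).branch ∉ 𝔪 ^ 2 ∧ (C i).rev.branch ∉ 𝔪 ^ 2) →
      ∀ d : Fin (n + 1) → 𝓞 E, (∀ i, (C i).IsDisc (d i) ∧ (C i).rev.IsDisc (d i)) →
      (∀ i j, i ≠ j → ∀ 𝔭 : Ideal (𝓞 E), 𝔭.IsPrime → d i ∈ 𝔭 → d j ∈ 𝔭 → 2 ∈ 𝔭) →
      ∀ T : Set (Fin (n + 1)),
      (∀ i, i ∉ T → IsOrdTwo (C i) ∧ IsOrdTwo (C i).rev ∧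
        (C i).h.map (s : 𝓞 E →+* 𝓞 E) = (C i).h) →
      (∀ i ∈ T, (C i).IsSmoothTwo ∧ (C i).rev.IsSmoothTwo) →
      ∀ (K : Type) [Field K] [Algebra E K] (x y : Fin (n + 1) → K), AlgebraicIndependent E x →
      (∀ i, y i ^ 2 + aeval (x i) ((C i).h.map (algebraMap (𝓞 E) E)) * y i =
        aeval (x i) ((C i).f.map (algebraMap (𝓞 E) E))) →
      IntermediateField.adjoin E (Set.range x ∪ Set.range y) = ⊤ →
      ∀ (σ : K ≃+* K), (∀ a : 𝓞 E, σ (algebraMap E K (a : E)) = algebraMap E K (s a : E)) →
      (∀ i, i ∉ T → σ (x i) = x i ∧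
        σ (y i) = -y i - aeval (x i) ((C i).h.map (algebraMap (𝓞 E) E))) →
      (∀ i ∈ T, (σ (x i) = x i ∨ σ (x i) = -x i) ∧ (σ (y i) = y i ∨ σ (y i) = -y i)) →
      ∀ (Y : Scheme.{0}) (_ : IsIntegral Y) (g : Y ⟶ Spec (CommRingCat.of ℤ)),
      LocallyOfFiniteType g → QuasiCompact g →
      Nonempty (Y.functionField ≃+* RingHom.eqLocusField (σ : K →+* K) (RingHom.id K)) →
      ∃ (X' : Scheme.{0}) (_ : IsIntegral X') (g' : X' ⟶ Spec (CommRingCat.of ℤ)),
        IsProper g' ∧
        (∀ x : X',
          (((Module.finrank (IsLocalRing.ResidueField (X'.presheaf.stalk x))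
              (IsLocalRing.CotangentSpace (X'.presheaf.stalk x)) : ℕ∞)) : WithBot ℕ∞)
            = ringKrullDim (X'.presheaf.stalk x)) ∧
        Nonempty (X'.functionField ≃+* Y.functionField) := by
  intro E _ _ s hss hs1 hsR n C hC hR d hd hco T hord hsmo K _ _ x y hx hE hK σ hσO hσ hσt Y _ g
    _ _ ⟨e⟩
  have h20 : (2 : 𝓞 E) ≠ 0 := two_ne_zero
  have hF : ∀ x, σ x = x ↔ ∃ f : RingHom.eqLocusField (σ : K →+* K) (RingHom.id K),
      algebraMap (RingHom.eqLocusField (σ : K →+* K) (RingHom.id K)) K f = x := by
    intro x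
    constructor
    · intro hx
      exact ⟨⟨x, hx⟩, rfl⟩
    · rintro ⟨f, rfl⟩
      exact f.2
  have hJ : IsJacobsonRing (𝓞 E) := jacO E
  have hR' : ∀ i, (C i).IsReg ∧ (C i).rev.IsReg := fun i =>
    ⟨isReg_of_max fun 𝔪 h𝔪 h => (hR i 𝔪 h𝔪 h).1, isReg_of_max fun 𝔪 h𝔪 h => (hR i 𝔪 h𝔪 h).2⟩
  have hRam : RamOK s := by
    intro 𝔓 h𝔓
    have hne : 𝔓 ≠ ⊥ := by
      rintro rfl
      exact h20 (Ideal.mem_bot.1 h𝔓.2.1)
    exact ⟨two_mem_sq hs1 h𝔓 (Ideal.finiteQuotientOfFreeOfNeBot 𝔓 hne),
      hsR 𝔓 h𝔓.1 h𝔓.2.1 h𝔓.2.2⟩
  obtain ⟨X', hX', g', h3, h4, ⟨h5⟩⟩ := tw_main (𝓞 E) E s hss hs1 hRam C hC hR' d hd hco T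
    (fun i hi => ⟨(hord i hi).1, (hord i hi).2.1⟩) (fun i hi => (hord i hi).2.2) hsmo K x y
    hx hE hK σ hσO (fun i hi => (hσ i hi).1) (fun i hi => (hσ i hi).2) hσt hF
  exact ⟨X', hX', g', h3, h4, ⟨h5.trans e.symm⟩⟩

end Pool.Agent.Results.MP_4d1008_ag.TwistedHyperellipticProducts
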